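import Pool.Agent.N467.BL.All
import Pool.Agent.N467.BL.W5
import Pool.Agent.N467.BL.Fam

/-!
# The Birkhoff-Lewis inequality for a family of planar type and width at most six

`Disc w G S r` (in `Pool.Agent.N467.BL.Defs`): the graph `G` with the vertex set `S` is drawn in a
disc bounded by the cycle through `r`, and it is built from polygons by gluing two discs along
boundary paths, again and again, all perimeters being at most `w`; vertices of the shared path may
become inner vertices, and the neighbours on the new boundary are joined by edges.

`Fam w V G` (in `Pool.Agent.N467.BL.Fam`): the least family which contains these graphs and the graphs
with at most one vertex, and contains a graph `G` whenever it contains `G + uv` and `G / uv` (`u` and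
`v` identified) for two vertices `u`, `v` which are not adjacent.

Every plane triangulation with a sphere-cut decomposition of width at most `w` is a glued disc: the
nooses of the decomposition are the boundaries. Every planar graph of branchwidth at most `w` which
is not a triangulation has two vertices `u`, `v` which are not adjacent such that `G + uv` and
`G / uv` are planar and of branchwidth at most `w`. So `Fam w` contains all planar graphs of
branchwidth at most `w` (this is not in Lean).

Proof. The colourings of a disc with boundary `r` are described by a vector of polynomials in the
number `q` of colours, indexed by the noncrossing partitions of `r` without equal neighbours. For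
each length of the boundary these vectors stay in a cone which is spanned by the vectors of a few
small triangulated discs (46 for length six) for `113 / 25 < q`; the closure under the 226 kinds of
gluing is checked with certificates by the kernel. The certificates use that vertices of degree at
most four can be removed for `4 < q`, and that a ring of length six around a diamond of four vertices
of degree five is a nonnegative combination of smaller ones for `113 / 25 < q < 5`.
-/

set_option autoImplicit false

namespace Pool.Agent.Results.MP_0d034c_co.GluedAndSplit

open Polynomial Pool.Agent.N467.BL

/-- Let `G` be a finite graph. If `G` belongs to `Fam 6`, then its chromatic polynomial is strictly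
positive at every real `q` with `113 / 25 < q < 5`; if it belongs to `Fam 5`, then its chromatic
polynomial is strictly positive at every real `q > 4`. -/
theorem result (V : Type) [Finite V] (G : SimpleGraph V)
    (p : ℝ[X]) (hp : ∀ k : ℕ, p.eval (k : ℝ) = (Nat.card (G.Coloring (Fin k)) : ℝ)) (q : ℝ) :
    (Fam 6 V G → 113 / 25 < q → q < 5 → 0 < p.eval q) ∧ (Fam 5 V G → 4 < q → 0 < p.eval q) :=
  ⟨fun h h1 h2 => fam_pos (by linarith) (fun _ _ _ _ h p hp => disc6_pos h p hp h1 h2) h p hp,
    fun h h1 => fam_pos (by linarith) (fun _ _ _ _ h p hp => disc5_pos h p hp h1) h p hp⟩

end Pool.Agent.Results.MP_0d034c_co.GluedAndSplit
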